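import Pool.Agent.H.MP_4cdc07_co.Main

set_option autoImplicit false

namespace Pool.Agent.Results.MP_4cdc07_co.NoMax

open Finset

def walsh {n : ℕ} (F : (Fin n → ZMod 2) → Fin n → ZMod 2) (u v : Fin n → ZMod 2) : ℤ :=
  ∑ x, (-1) ^ (u ⬝ᵥ x + v ⬝ᵥ F x).val

def Plateaued {n : ℕ} (F : (Fin n → ZMod 2) → Fin n → ZMod 2) : Prop :=
  ∀ v ≠ 0, ∃ l : ℝ, 0 ≤ l ∧
    ∀ u, (walsh F u v : ℝ) = 0 ∨ (walsh F u v : ℝ) = l ∨ (walsh F u v : ℝ) = -l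

def APN {n : ℕ} (F : (Fin n → ZMod 2) → Fin n → ZMod 2) : Prop :=
  ∀ a ≠ 0, ∀ b, (univ.filter fun x => F x + F (x + a) = b).card ≤ 2

def graph {n : ℕ} (F : (Fin n → ZMod 2) → Fin n → ZMod 2) :
    Finset ((Fin n → ZMod 2) × (Fin n → ZMod 2)) :=
  univ.image fun x => (x, F x)

def mult {n : ℕ} (S : Finset ((Fin n → ZMod 2) × (Fin n → ZMod 2)))
    (p : (Fin n → ZMod 2) × (Fin n → ZMod 2)) : ℕ :=
  ((S.powersetCard 3).filter fun T => ∑ q ∈ T, q = p).card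

theorem result (n : ℕ) (hn : 4 ≤ n) (he : Even n) (F : (Fin n → ZMod 2) → Fin n → ZMod 2)
    (hP : Plateaued F) (hA : APN F) (p : (Fin n → ZMod 2) × (Fin n → ZMod 2))
    (hp : p ∉ graph F) : (mult (graph F) p : ℚ) < (2 ^ n - 1) / 3 := by
  obtain ⟨a, b⟩ := p
  have hb : b ≠ F a := by
    rintro rfl
    exact hp (mem_image.2 ⟨a, mem_univ _, rfl⟩)
  have h : 3 * mult (graph F) (a, b) + 1 < 2 ^ n :=
    Pool.Agent.H.MP_4cdc07_co.lt_mult hn he F hP hA a b hb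
  have h' : 3 * (mult (graph F) (a, b) : ℚ) + 1 < 2 ^ n := by exact_mod_cast h
  linarith

end Pool.Agent.Results.MP_4cdc07_co.NoMax
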